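import Pool.Agent.V8H85.KS.Defs
import Pool.Agent.V8H85.RF.Herm
import Pool.Agent.V8H85.Iso.Basic

set_option autoImplicit false

/-! Decomposition of positive definite forms over the integral group ring. -/

namespace Pool.Agent.V8H85.KS

open MonoidAlgebra Pool.Agent.V8H85.RF Pool.Agent.V8H85.Iso

variable {Γ : Type*} [Group Γ] {P : Type*} [AddCommGroup P] [Module (MonoidAlgebra ℤ Γ) P]
  {h : HermForm Γ P}

/-- the underlying integral form -/
noncomputable def lat (hp : h.PosDef) : Lat P where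
  B := h.B
  add_left := h.B_add
  symm := h.B_symm
  pos := hp

theorem val_neg_left (h : HermForm Γ P) (x y : P) : h.val (-x) y = -h.val x y := by
  have := h.add_left (-x) x y
  rw [neg_add_cancel, h.zero_left] at this
  exact eq_neg_of_add_eq_zero_left this.symm

theorem val_comm_zero (h : HermForm Γ P) {x y : P} (hxy : h.val x y = 0) : h.val y x = 0 := by
  rw [h.symm, hxy, bar_zero]

theorem Orth.symm {X Y : Submodule (MonoidAlgebra ℤ Γ) P} (hXY : Orth h X Y) : Orth h Y X :=
  fun y hy x hx => val_comm_zero h (hXY x hx y hy)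

theorem irr_mem (hp : h.PosDef) {X Y : Submodule (MonoidAlgebra ℤ Γ) P} (hXY : Orth h X Y)
    (hT : X ⊔ Y = ⊤) {y : P} (hy : (lat hp).Irr y) : y ∈ X ∨ y ∈ Y := by
  have h1 : y ∈ X ⊔ Y := by rw [hT]; trivial
  obtain ⟨a, ha, b, hb, hab⟩ := Submodule.mem_sup.1 h1
  have h2 : (lat hp).B a b = 0 := by
    change (h.val a b).coeff 1 = 0
    rw [hXY a ha b hb]
    rfl
  rcases hy.2 a b hab.symm h2.ge with h3 | h3
  · right
    rw [← hab, h3, zero_add]
    exact hb
  · left
    rw [← hab, h3, add_zero]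
    exact ha

/-- the relation generating the pieces -/
def rel (hp : h.PosDef) (x y : {y : P // (lat hp).Irr y}) : Prop := h.val x.1 y.1 ≠ 0

/-- the index set of the pieces -/
def Ix (hp : h.PosDef) : Type _ := Quot (rel hp)

/-- the pieces -/
noncomputable def piece (hp : h.PosDef) (q : Ix hp) : Submodule (MonoidAlgebra ℤ Γ) P :=
  Submodule.span _ {y | ∃ hy : (lat hp).Irr y, Quot.mk (rel hp) ⟨y, hy⟩ = q}

theorem span_orth {s t : Set P} (hst : ∀ x ∈ s, ∀ y ∈ t, h.val x y = 0) :
    Orth h (Submodule.span _ s) (Submodule.span _ t) := by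
  intro x hx y hy
  induction hx using Submodule.span_induction with
  | mem x hx =>
    induction hy using Submodule.span_induction with
    | mem y hy => exact hst x hx y hy
    | zero => exact h.zero_right x
    | add a b _ _ ha hb => rw [h.add_right, ha, hb, add_zero]
    | smul a b _ hb => rw [h.smul_right, hb, zero_mul]
  | zero => exact h.zero_left y
  | add a b _ _ ha hb => rw [h.add_left, ha, hb, add_zero]
  | smul a b _ hb => rw [h.smul_left, hb, mul_zero]

theorem piece_orth (hp : h.PosDef) {q q' : Ix hp} (hq : q ≠ q') :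
    Orth h (piece hp q) (piece hp q') := by
  refine span_orth ?_
  rintro x ⟨hx, hxq⟩ y ⟨hy, hyq⟩
  by_contra hne
  exact hq (hxq.symm.trans ((Quot.sound (show rel hp ⟨x, hx⟩ ⟨y, hy⟩ from hne)).trans hyq))

theorem mem_piece (hp : h.PosDef) {y : P} (hy : (lat hp).Irr y) :
    y ∈ piece hp (Quot.mk _ ⟨y, hy⟩) := Submodule.subset_span ⟨hy, rfl⟩

theorem iSup_piece (hp : h.PosDef) : (⨆ q, piece hp q) = ⊤ := by
  rw [eq_top_iff]
  intro x _
  have h1 : x ∈ AddSubgroup.closure {y | (lat hp).Irr y} := by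
    rw [(lat hp).closure_irr]; trivial
  have h2 : AddSubgroup.closure {y | (lat hp).Irr y} ≤
      (⨆ q, piece hp q : Submodule (MonoidAlgebra ℤ Γ) P).toAddSubgroup := by
    rw [AddSubgroup.closure_le]
    intro y hy
    exact (le_iSup (piece hp) (Quot.mk _ ⟨y, hy⟩)) (mem_piece hp hy)
  exact h2 h1

theorem piece_ne_bot (hp : h.PosDef) (q : Ix hp) : piece hp q ≠ ⊥ := by
  obtain ⟨⟨y, hy⟩, rfl⟩ := Quot.exists_rep q
  intro h0
  have := mem_piece hp hy
  rw [h0, Submodule.mem_bot] at this
  exact hy.1 this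

theorem piece_le (hp : h.PosDef) {X Y : Submodule (MonoidAlgebra ℤ Γ) P} (hXY : Orth h X Y)
    (hT : X ⊔ Y = ⊤) (q : Ix hp) : piece hp q ≤ X ∨ piece hp q ≤ Y := by
  classical
  -- the side on which an irreducible vector lies is constant on classes
  have key : ∀ x y : {y : P // (lat hp).Irr y}, rel hp x y → (x.1 ∈ X ↔ y.1 ∈ X) := by
    intro x y hxy
    have hx := irr_mem hp hXY hT x.2
    have hy := irr_mem hp hXY hT y.2
    constructor
    · intro hX
      rcases hy with hy | hy
      · exact hy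
      · exact absurd (hXY _ hX _ hy) hxy
    · intro hX
      rcases hx with hx | hx
      · exact hx
      · exact absurd (hXY.symm _ hx _ hX) hxy
  let f : Ix hp → Prop := Quot.lift (fun x => x.1 ∈ X) fun x y hxy => propext (key x y hxy)
  by_cases hf : f q
  · left
    refine Submodule.span_le.2 ?_
    rintro y ⟨hy, rfl⟩
    exact hf
  · right
    refine Submodule.span_le.2 ?_
    rintro y ⟨hy, rfl⟩
    rcases irr_mem hp hXY hT hy with h1 | h1
    · exact absurd h1 hf
    · exact h1

theorem universal_piece (hp : h.PosDef) : UniversalDecomposition h (piece hp) :=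
  ⟨piece_ne_bot hp, fun _ _ hij => piece_orth hp hij, iSup_piece hp,
    fun _ _ hXY hT q => piece_le hp hXY hT q⟩

theorem orth_iSup {ι : Sort*} {X : Submodule (MonoidAlgebra ℤ Γ) P}
    {S : ι → Submodule (MonoidAlgebra ℤ Γ) P} (hS : ∀ i, Orth h X (S i)) :
    Orth h X (⨆ i, S i) := by
  intro x hx y hy
  refine Submodule.iSup_induction S (motive := fun y => h.val x y = 0) hy
    (fun i z hz => hS i x hx z hz) (h.zero_right x) ?_
  intro a b ha hb
  rw [h.add_right, ha, hb, add_zero]

theorem orth_biSup {ι : Type*} {p : ι → Prop} {X : Submodule (MonoidAlgebra ℤ Γ) P}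
    {S : ι → Submodule (MonoidAlgebra ℤ Γ) P} (hS : ∀ i, p i → Orth h X (S i)) :
    Orth h X (⨆ (i : ι) (_ : p i), S i) :=
  orth_iSup (S := fun i => ⨆ (_ : p i), S i) fun i =>
    orth_iSup (S := fun _ : p i => S i) fun hi => hS i hi

theorem eq_bot_of_orth_top (hp : h.PosDef) {X : Submodule (MonoidAlgebra ℤ Γ) P}
    (hX : Orth h X ⊤) : X = ⊥ := by
  rw [eq_bot_iff]
  intro x hx
  by_contra h0
  have h1 := hp x (fun h2 => h0 (by rw [h2]; exact zero_mem _))
  rw [hX x hx x trivial] at h1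
  exact lt_irrefl _ h1

theorem finite_of_universal (hp : h.PosDef) [Module.Finite (MonoidAlgebra ℤ Γ) P] {ι : Type*}
    {S : ι → Submodule (MonoidAlgebra ℤ Γ) P} (hS : UniversalDecomposition h S) : Finite ι := by
  classical
  obtain ⟨s, hs⟩ := (Module.Finite.fg_top : (⊤ : Submodule (MonoidAlgebra ℤ Γ) P).FG)
  have h1 : ∀ x : P, ∃ t : Finset ι, x ∈ ⨆ i ∈ t, S i := by
    intro x
    have hx : x ∈ ⨆ i, S i := by rw [hS.2.2.1]; trivial
    exact Submodule.mem_iSup_iff_exists_finset.1 hx
  choose t ht using h1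
  let T : Finset ι := s.biUnion t
  have h2 : (⨆ i ∈ T, S i) = ⊤ := by
    rw [eq_top_iff, ← hs, Submodule.span_le]
    intro x hx
    have h3 : (⨆ i ∈ t x, S i) ≤ ⨆ i ∈ T, S i := by
      refine iSup₂_le fun i hi => ?_
      exact le_iSup₂_of_le i (Finset.mem_biUnion.2 ⟨x, hx, hi⟩) le_rfl
    exact h3 (ht x)
  have h4 : ∀ i, i ∈ T := by
    intro i
    by_contra hi
    refine hS.1 i (eq_bot_of_orth_top hp ?_)
    rw [← h2]
    refine orth_biSup (p := fun j => j ∈ T) fun j hj => hS.2.1 i j ?_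
    rintro rfl
    exact hi hj
  exact Set.finite_univ_iff.1 (T.finite_toSet.subset fun i _ => h4 i)

/-- Two universal decompositions of the same form agree up to order. -/
theorem exists_le (hp : h.PosDef) {ι κ : Type*} {S : ι → Submodule (MonoidAlgebra ℤ Γ) P}
    {T : κ → Submodule (MonoidAlgebra ℤ Γ) P} (hS : UniversalDecomposition h S)
    (hT : UniversalDecomposition h T) (i : ι) : ∃ j, S i ≤ T j := by
  classical
  have h1 : ∃ j, ¬Orth h (S i) (T j) := by
    by_contra hne
    push Not at hne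
    refine hS.1 i (eq_bot_of_orth_top hp ?_)
    rw [← hT.2.2.1]
    exact orth_iSup hne
  obtain ⟨j, hj⟩ := h1
  refine ⟨j, ?_⟩
  have h2 : Orth h (T j) (⨆ (j' : κ) (_ : j' ≠ j), T j') :=
    orth_biSup (p := fun j' => j' ≠ j) fun j' hj' => hT.2.1 j j' (Ne.symm hj')
  have h3 : T j ⊔ (⨆ (j' : κ) (_ : j' ≠ j), T j') = ⊤ := by
    rw [eq_top_iff, ← hT.2.2.1]
    refine iSup_le fun j' => ?_
    by_cases hj' : j' = j
    · rw [hj']; exact le_sup_left
    · exact le_sup_of_le_right (le_iSup₂_of_le j' hj' le_rfl)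
  rcases hS.2.2.2 _ _ h2 h3 i with h4 | h4
  · exact h4
  · exfalso
    apply hj
    intro x hx y hy
    exact h2.symm x (h4 hx) y hy

theorem le_imp_eq (hp : h.PosDef) {ι : Type*} {S : ι → Submodule (MonoidAlgebra ℤ Γ) P}
    (hS : UniversalDecomposition h S) {i j : ι} (hij : S i ≤ S j) : i = j := by
  by_contra hne
  refine hS.1 i ?_
  rw [eq_bot_iff]
  intro x hx
  by_contra h0
  have h1 := hp x (fun h2 => h0 (by rw [h2]; exact zero_mem _))
  rw [hS.2.1 i j hne x hx x (hij hx)] at h1
  exact lt_irrefl _ h1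

theorem exists_equiv (hp : h.PosDef) {ι κ : Type*} {S : ι → Submodule (MonoidAlgebra ℤ Γ) P}
    {T : κ → Submodule (MonoidAlgebra ℤ Γ) P} (hS : UniversalDecomposition h S)
    (hT : UniversalDecomposition h T) : ∃ e : ι ≃ κ, ∀ i, S i = T (e i) := by
  choose f hf using exists_le hp hS hT
  choose g hg using exists_le hp hT hS
  have hgf : ∀ i, g (f i) = i := fun i => (le_imp_eq hp hS ((hf i).trans (hg (f i)))).symm
  have hfg : ∀ j, f (g j) = j := fun j => (le_imp_eq hp hT ((hg j).trans (hf (g j)))).symm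
  refine ⟨⟨f, g, hgf, hfg⟩, fun i => le_antisymm (hf i) ?_⟩
  have := hg (f i)
  rw [hgf] at this
  exact this

end Pool.Agent.V8H85.KS
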