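import Mathlib

set_option autoImplicit false

/-! Cancellation of finite families of labels. -/

namespace Pool.Agent.V8H85.KS

universe u v w

/-- regrouping -/
def regroup (α : Type u) (γ : Type v) : Option (α ⊕ γ) ≃ α ⊕ Option γ where
  toFun
    | none => Sum.inr none
    | some (Sum.inl a) => Sum.inl a
    | some (Sum.inr c) => Sum.inr (some c)
  invFun
    | Sum.inl a => some (Sum.inl a)
    | Sum.inr none => none
    | Sum.inr (some c) => some (Sum.inr c)
  left_inv := by rintro (_ | _ | _) <;> rfl
  right_inv := by rintro (_ | _ | _) <;> rfl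

theorem comb {Ω : Type w} {r : Ω → Ω → Prop} (hr : Equivalence r) (γ : Type v) [Finite γ] :
    ∀ {α β : Type u} (f : α → Ω) (f' : β → Ω) (g : γ → Ω) (σ : α ⊕ γ ≃ β ⊕ γ),
      (∀ a, r (Sum.elim f g a) (Sum.elim f' g (σ a))) → ∃ τ : α ≃ β, ∀ a, r (f a) (f' (τ a)) := by
  induction γ using Finite.induction_empty_option with
  | of_equiv e ih =>
    intro α β f f' g σ hσ
    refine ih f f' (g ∘ e) ((Equiv.sumCongr (Equiv.refl α) e).trans
      (σ.trans (Equiv.sumCongr (Equiv.refl β) e.symm))) ?_
    intro a
    have h1 : Sum.elim f (g ∘ e) a = Sum.elim f g (Equiv.sumCongr (Equiv.refl α) e a) := by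
      rcases a with a | a <;> rfl
    have h2 : ∀ b, Sum.elim f' (g ∘ e) ((Equiv.sumCongr (Equiv.refl β) e.symm) b) =
        Sum.elim f' g b := by
      intro b
      rcases b with b | b
      · rfl
      · change g (e (e.symm b)) = g b
        rw [Equiv.apply_symm_apply]
    rw [h1, Equiv.trans_apply, Equiv.trans_apply, h2]
    exact hσ _
  | h_empty =>
    intro α β f f' g σ hσ
    refine ⟨(Equiv.sumEmpty α PEmpty).symm.trans (σ.trans (Equiv.sumEmpty β PEmpty)), fun a => ?_⟩
    have h1 := hσ (Sum.inl a)
    have h2 : ∀ b : β ⊕ PEmpty, Sum.elim f' g b = f' (Equiv.sumEmpty β PEmpty b) := by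
      rintro (b | b)
      · rfl
      · exact b.elim
    rw [h2] at h1
    exact h1
  | h_option ih =>
    intro α β f f' g σ hσ
    rename_i γ' _
    let σ' : Option (α ⊕ γ') ≃ Option (β ⊕ γ') :=
      (regroup α γ').trans (σ.trans (regroup β γ').symm)
    let F : Option (α ⊕ γ') → Ω := fun y => Sum.elim f g (regroup α γ' y)
    let F' : Option (β ⊕ γ') → Ω := fun y => Sum.elim f' g (regroup β γ' y)
    have hF : ∀ y, r (F y) (F' (σ' y)) := by
      intro y
      have : F' (σ' y) = Sum.elim f' g (σ (regroup α γ' y)) := by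
        change Sum.elim f' g (regroup β γ' ((regroup β γ').symm (σ (regroup α γ' y)))) = _
        rw [Equiv.apply_symm_apply]
      rw [this]
      exact hσ _
    have hFs : ∀ x : α ⊕ γ', F (some x) = Sum.elim f (g ∘ some) x := by
      rintro (x | x) <;> rfl
    have hFs' : ∀ x : β ⊕ γ', F' (some x) = Sum.elim f' (g ∘ some) x := by
      rintro (x | x) <;> rfl
    refine ih f f' (g ∘ some) (Equiv.removeNone σ') ?_
    intro x
    rw [← hFs, ← hFs']
    by_cases h1 : ∃ x', σ' (some x) = some x'
    · rw [Equiv.removeNone_some _ h1]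
      exact hF _
    · have h2 : σ' (some x) = none := by
        rcases h3 : σ' (some x) with _ | x'
        · rfl
        · exact absurd ⟨x', h3⟩ h1
      rw [Equiv.removeNone_none _ h2]
      have h4 := hF (some x)
      rw [h2] at h4
      exact hr.trans h4 (hF none)

end Pool.Agent.V8H85.KS
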