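import Pool.Agent.V8H85.KS.Basic
import Pool.Agent.V8H85.KS.Comb

set_option autoImplicit false

/-! Cancellation of positive definite forms over the integral group ring. -/

namespace Pool.Agent.V8H85.KS

open MonoidAlgebra Pool.Agent.V8H85.RF Pool.Agent.V8H85.Iso Pool.Agent.V8H85.Fam

universe u v

variable {Γ : Type*} [Group Γ] {P : Type*} [AddCommGroup P] [Module (MonoidAlgebra ℤ Γ) P]
  {P' : Type*} [AddCommGroup P'] [Module (MonoidAlgebra ℤ Γ) P']
  {M : Type*} [AddCommGroup M] [Module (MonoidAlgebra ℤ Γ) M]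
  {h : HermForm Γ P} {h' : HermForm Γ P'} {k : HermForm Γ M}

theorem posDef_osum (hp : h.PosDef) (kp : k.PosDef) : (osum h k).PosDef := by
  intro x hx
  change 0 < (h.val x.1 x.1 + k.val x.2 x.2).coeff 1
  rw [coeff_add, Finsupp.add_apply]
  by_cases h1 : x.1 = 0
  · have h2 : x.2 ≠ 0 := fun h3 => hx (Prod.ext h1 h3)
    rw [h1, h.zero_left]
    have := kp _ h2
    simpa using this
  · have h3 := hp _ h1
    by_cases h2 : x.2 = 0
    · rw [h2, k.zero_left]
      simpa using h3
    · exact add_pos h3 (kp _ h2)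

/-- transport of a universal decomposition along an isometry -/
theorem transport (e : P ≃ₗ[MonoidAlgebra ℤ Γ] P') (he : ∀ u v, h'.val (e u) (e v) = h.val u v)
    {ι : Type*} {S : ι → Submodule (MonoidAlgebra ℤ Γ) P} (hS : UniversalDecomposition h S) :
    UniversalDecomposition h' (fun i => (S i).map (e : P →ₗ[MonoidAlgebra ℤ Γ] P')) := by
  refine ⟨fun i hi => hS.1 i ?_, ?_, ?_, ?_⟩
  · rw [eq_bot_iff]
    intro x hx
    have hi' : (S i).map (e : P →ₗ[MonoidAlgebra ℤ Γ] P') = ⊥ := hi
    have h1 : (e x) ∈ (S i).map (e : P →ₗ[MonoidAlgebra ℤ Γ] P') := ⟨x, hx, rfl⟩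
    rw [hi', Submodule.mem_bot] at h1
    rw [Submodule.mem_bot]
    exact e.map_eq_zero_iff.1 h1
  · rintro i j hij _ ⟨x, hx, rfl⟩ _ ⟨y, hy, rfl⟩
    exact (he x y).trans (hS.2.1 i j hij x hx y hy)
  · rw [← Submodule.map_iSup, hS.2.2.1, Submodule.map_top]
    exact LinearMap.range_eq_top.2 e.surjective
  · intro X Y hXY hT i
    have h1 : Orth h (X.comap (e : P →ₗ[MonoidAlgebra ℤ Γ] P'))
        (Y.comap (e : P →ₗ[MonoidAlgebra ℤ Γ] P')) := by
      intro x hx y hy
      rw [← he]
      exact hXY _ hx _ hy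
    have h2 : X.comap (e : P →ₗ[MonoidAlgebra ℤ Γ] P') ⊔
        Y.comap (e : P →ₗ[MonoidAlgebra ℤ Γ] P') = ⊤ := by
      rw [eq_top_iff]
      intro x _
      have h3 : e x ∈ X ⊔ Y := by rw [hT]; trivial
      obtain ⟨a, ha, b, hb, hab⟩ := Submodule.mem_sup.1 h3
      refine Submodule.mem_sup.2 ⟨e.symm a, ?_, e.symm b, ?_, ?_⟩
      · change e (e.symm a) ∈ X
        rwa [e.apply_symm_apply]
      · change e (e.symm b) ∈ Y
        rwa [e.apply_symm_apply]
      · rw [← map_add, hab, e.symm_apply_apply]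
    rcases hS.2.2.2 _ _ h1 h2 i with h3 | h3
    · left
      rintro _ ⟨x, hx, rfl⟩
      exact h3 hx
    · right
      rintro _ ⟨x, hx, rfl⟩
      exact h3 hx

theorem osum_inl (x : P) (y : M) (h : HermForm Γ P) (k : HermForm Γ M) :
    (osum h k).val (x, 0) (0, y) = 0 := by
  change h.val x 0 + k.val 0 y = 0
  rw [h.zero_right, k.zero_left, add_zero]

theorem osum_inr (x : P) (y : M) (h : HermForm Γ P) (k : HermForm Γ M) :
    (osum h k).val (0, y) (x, 0) = 0 := by
  change h.val 0 x + k.val y 0 = 0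
  rw [k.zero_right, h.zero_left, add_zero]

/-- the two obvious submodules -/
theorem orth_inl_inr (h : HermForm Γ P) (k : HermForm Γ M) :
    Orth (osum h k) (LinearMap.range (LinearMap.inl (MonoidAlgebra ℤ Γ) P M))
      (LinearMap.range (LinearMap.inr (MonoidAlgebra ℤ Γ) P M)) := by
  rintro _ ⟨x, rfl⟩ _ ⟨y, rfl⟩
  exact osum_inl x y h k

theorem sup_inl_inr : LinearMap.range (LinearMap.inl (MonoidAlgebra ℤ Γ) P M) ⊔
      LinearMap.range (LinearMap.inr (MonoidAlgebra ℤ Γ) P M) = ⊤ := by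
  rw [eq_top_iff]
  intro z _
  refine Submodule.mem_sup.2 ⟨(z.1, 0), ⟨z.1, rfl⟩, (0, z.2), ⟨z.2, rfl⟩, ?_⟩
  simp

/-- a submodule decomposition of a sum restricts to the first summand -/
theorem comap_inl (hp : h.PosDef) (kp : k.PosDef) {X Y : Submodule (MonoidAlgebra ℤ Γ) (P × M)}
    (hXY : Orth (osum h k) X Y) (hT : X ⊔ Y = ⊤) :
    X.comap (LinearMap.inl (MonoidAlgebra ℤ Γ) P M) ⊔
      Y.comap (LinearMap.inl (MonoidAlgebra ℤ Γ) P M) = ⊤ := by
  have hpk := posDef_osum hp kp
  rw [eq_top_iff]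
  intro p _
  have h1 : ((p, 0) : P × M) ∈ AddSubgroup.closure {y | (lat hpk).Irr y} := by
    rw [(lat hpk).closure_irr]; trivial
  have h2 : AddSubgroup.closure {y | (lat hpk).Irr y} ≤
      ((X.comap (LinearMap.inl (MonoidAlgebra ℤ Γ) P M) ⊔
        Y.comap (LinearMap.inl (MonoidAlgebra ℤ Γ) P M)).toAddSubgroup).comap
          (AddMonoidHom.fst P M) := by
    rw [AddSubgroup.closure_le]
    intro z hz
    change z.1 ∈ (X.comap (LinearMap.inl (MonoidAlgebra ℤ Γ) P M) ⊔
        Y.comap (LinearMap.inl (MonoidAlgebra ℤ Γ) P M))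
    rcases irr_mem hpk (orth_inl_inr h k) sup_inl_inr hz with ⟨x, rfl⟩ | ⟨y, rfl⟩
    · rcases irr_mem hpk hXY hT hz with h3 | h3
      · exact Submodule.mem_sup_left h3
      · exact Submodule.mem_sup_right h3
    · exact zero_mem _
  exact h2 h1

/-- exchange of the summands -/
theorem comap_inr (hp : h.PosDef) (kp : k.PosDef) {X Y : Submodule (MonoidAlgebra ℤ Γ) (P × M)}
    (hXY : Orth (osum h k) X Y) (hT : X ⊔ Y = ⊤) :
    X.comap (LinearMap.inr (MonoidAlgebra ℤ Γ) P M) ⊔
      Y.comap (LinearMap.inr (MonoidAlgebra ℤ Γ) P M) = ⊤ := by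
  have hpk := posDef_osum hp kp
  rw [eq_top_iff]
  intro p _
  have h1 : ((0, p) : P × M) ∈ AddSubgroup.closure {y | (lat hpk).Irr y} := by
    rw [(lat hpk).closure_irr]; trivial
  have h2 : AddSubgroup.closure {y | (lat hpk).Irr y} ≤
      ((X.comap (LinearMap.inr (MonoidAlgebra ℤ Γ) P M) ⊔
        Y.comap (LinearMap.inr (MonoidAlgebra ℤ Γ) P M)).toAddSubgroup).comap
          (AddMonoidHom.snd P M) := by
    rw [AddSubgroup.closure_le]
    intro z hz
    change z.2 ∈ (X.comap (LinearMap.inr (MonoidAlgebra ℤ Γ) P M) ⊔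
        Y.comap (LinearMap.inr (MonoidAlgebra ℤ Γ) P M))
    rcases irr_mem hpk (orth_inl_inr h k) sup_inl_inr hz with ⟨x, rfl⟩ | ⟨y, rfl⟩
    · exact zero_mem _
    · rcases irr_mem hpk hXY hT hz with h3 | h3
      · exact Submodule.mem_sup_left h3
      · exact Submodule.mem_sup_right h3
  exact h2 h1

/-- the pieces of an orthogonal sum -/
noncomputable def sumPieces {ι κ : Type*} (S : ι → Submodule (MonoidAlgebra ℤ Γ) P)
    (U : κ → Submodule (MonoidAlgebra ℤ Γ) M) :
    ι ⊕ κ → Submodule (MonoidAlgebra ℤ Γ) (P × M) :=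
  Sum.elim (fun i => (S i).map (LinearMap.inl (MonoidAlgebra ℤ Γ) P M))
    (fun j => (U j).map (LinearMap.inr (MonoidAlgebra ℤ Γ) P M))

theorem universal_sum (hp : h.PosDef) (kp : k.PosDef) {ι κ : Type*}
    {S : ι → Submodule (MonoidAlgebra ℤ Γ) P} {U : κ → Submodule (MonoidAlgebra ℤ Γ) M}
    (hS : UniversalDecomposition h S) (hU : UniversalDecomposition k U) :
    UniversalDecomposition (osum h k) (sumPieces S U) := by
  refine ⟨?_, ?_, ?_, ?_⟩
  · rintro (i | j) h0
    · refine hS.1 i ?_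
      rw [eq_bot_iff]
      intro x hx
      have h1 : ((x, 0) : P × M) ∈ sumPieces S U (Sum.inl i) := ⟨x, hx, rfl⟩
      rw [h0, Submodule.mem_bot] at h1
      rw [Submodule.mem_bot]
      exact congrArg Prod.fst h1
    · refine hU.1 j ?_
      rw [eq_bot_iff]
      intro x hx
      have h1 : ((0, x) : P × M) ∈ sumPieces S U (Sum.inr j) := ⟨x, hx, rfl⟩
      rw [h0, Submodule.mem_bot] at h1
      rw [Submodule.mem_bot]
      exact congrArg Prod.snd h1
  · rintro (i | j) (i' | j') hij
    · rintro _ ⟨x, hx, rfl⟩ _ ⟨y, hy, rfl⟩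
      change h.val x y + k.val 0 0 = 0
      rw [k.zero_left, add_zero]
      exact hS.2.1 i i' (fun h1 => hij (by rw [h1])) x hx y hy
    · rintro _ ⟨x, hx, rfl⟩ _ ⟨y, hy, rfl⟩
      exact osum_inl x y h k
    · rintro _ ⟨x, hx, rfl⟩ _ ⟨y, hy, rfl⟩
      exact osum_inr y x h k
    · rintro _ ⟨x, hx, rfl⟩ _ ⟨y, hy, rfl⟩
      change h.val 0 0 + k.val x y = 0
      rw [h.zero_left, zero_add]
      exact hU.2.1 j j' (fun h1 => hij (by rw [h1])) x hx y hy
  · rw [iSup_sum, eq_top_iff, ← sup_inl_inr]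
    refine sup_le_sup ?_ ?_
    · rintro _ ⟨x, rfl⟩
      have h1 : x ∈ ⨆ i, S i := by rw [hS.2.2.1]; trivial
      have h2 : (LinearMap.inl (MonoidAlgebra ℤ Γ) P M) x ∈
          (⨆ i, S i).map (LinearMap.inl (MonoidAlgebra ℤ Γ) P M) := ⟨x, h1, rfl⟩
      rw [Submodule.map_iSup] at h2
      exact h2
    · rintro _ ⟨x, rfl⟩
      have h1 : x ∈ ⨆ i, U i := by rw [hU.2.2.1]; trivial
      have h2 : (LinearMap.inr (MonoidAlgebra ℤ Γ) P M) x ∈
          (⨆ i, U i).map (LinearMap.inr (MonoidAlgebra ℤ Γ) P M) := ⟨x, h1, rfl⟩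
      rw [Submodule.map_iSup] at h2
      exact h2
  · intro X Y hXY hT
    rintro (i | j)
    · have h1 : Orth h (X.comap (LinearMap.inl (MonoidAlgebra ℤ Γ) P M))
          (Y.comap (LinearMap.inl (MonoidAlgebra ℤ Γ) P M)) := by
        intro x hx y hy
        have := hXY _ hx _ hy
        change h.val x y + k.val 0 0 = 0 at this
        rwa [k.zero_left, add_zero] at this
      rcases hS.2.2.2 _ _ h1 (comap_inl hp kp hXY hT) i with h2 | h2
      · left
        rintro _ ⟨x, hx, rfl⟩
        exact h2 hx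
      · right
        rintro _ ⟨x, hx, rfl⟩
        exact h2 hx
    · have h1 : Orth k (X.comap (LinearMap.inr (MonoidAlgebra ℤ Γ) P M))
          (Y.comap (LinearMap.inr (MonoidAlgebra ℤ Γ) P M)) := by
        intro x hx y hy
        have := hXY _ hx _ hy
        change h.val 0 0 + k.val x y = 0 at this
        rwa [h.zero_left, zero_add] at this
      rcases hU.2.2.2 _ _ h1 (comap_inr hp kp hXY hT) j with h2 | h2
      · left
        rintro _ ⟨x, hx, rfl⟩
        exact h2 hx
      · right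
        rintro _ ⟨x, hx, rfl⟩
        exact h2 hx

/-- restriction of a form to a submodule -/
noncomputable def res (h : HermForm Γ P) (S : Submodule (MonoidAlgebra ℤ Γ) P) :
    HermForm Γ S where
  val x y := h.val x.1 y.1
  add_left _ _ _ := h.add_left _ _ _
  smul_left _ _ _ := h.smul_left _ _ _
  symm _ _ := h.symm _ _

theorem isometric_refl (h : HermForm Γ P) : Isometric h h :=
  ⟨LinearEquiv.refl _ _, fun _ _ => rfl⟩

theorem Isometric.symm' (H : Isometric h h') : Isometric h' h := by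
  obtain ⟨e, he⟩ := H
  refine ⟨e.symm, fun u v => ?_⟩
  rw [← he, e.apply_symm_apply, e.apply_symm_apply]

theorem Isometric.trans' (H : Isometric h h') (H' : Isometric h' k) : Isometric h k := by
  obtain ⟨e, he⟩ := H
  obtain ⟨e', he'⟩ := H'
  refine ⟨e.trans e', fun u v => ?_⟩
  rw [LinearEquiv.trans_apply, LinearEquiv.trans_apply, he', he]

/-- isometries of the pieces can be glued -/
theorem glue (hp : h.PosDef) {ι : Type*}
    {S : ι → Submodule (MonoidAlgebra ℤ Γ) P} {S' : ι → Submodule (MonoidAlgebra ℤ Γ) P'}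
    (hS : UniversalDecomposition h S) (hS' : UniversalDecomposition h' S')
    (H : ∀ i, Isometric (res h (S i)) (res h' (S' i))) : Isometric h h' := by
  classical
  choose φ hφ using H
  have hind : iSupIndep S := by
    rw [iSupIndep_def]
    intro i
    rw [disjoint_iff, eq_bot_iff]
    rintro x ⟨hx1, hx2⟩
    by_contra h0
    have h1 := hp x (fun h2 => h0 (by rw [h2]; exact zero_mem _))
    have h3 : Orth h (S i) (⨆ (j : ι) (_ : j ≠ i), S j) :=
      orth_biSup (p := fun j => j ≠ i) fun j hj => hS.2.1 i j (Ne.symm hj)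
    rw [h3 x hx1 x hx2] at h1
    exact lt_irrefl _ h1
  have hI : DirectSum.IsInternal S :=
    DirectSum.isInternal_submodule_of_iSupIndep_of_iSup_eq_top hind hS.2.2.1
  let D := LinearEquiv.ofBijective (DirectSum.coeLinearMap S) hI
  let F : P →ₗ[MonoidAlgebra ℤ Γ] P' :=
    (DirectSum.toModule (MonoidAlgebra ℤ Γ) ι P'
      (fun i => (S' i).subtype ∘ₗ (φ i : S i →ₗ[MonoidAlgebra ℤ Γ] S' i))) ∘ₗ
      (D.symm : P →ₗ[MonoidAlgebra ℤ Γ] _)
  have hF : ∀ i (x : S i), F x.1 = (φ i x).1 := by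
    intro i x
    have h1 : D.symm x.1 = DirectSum.lof (MonoidAlgebra ℤ Γ) ι (fun i => S i) i x := by
      rw [LinearEquiv.symm_apply_eq]
      change _ = DirectSum.coeLinearMap S _
      rw [DirectSum.coeLinearMap_lof]
    change DirectSum.toModule (MonoidAlgebra ℤ Γ) ι P' _ (D.symm x.1) = _
    rw [h1, DirectSum.toModule_lof]
    rfl
  have hval : ∀ x y, h'.val (F x) (F y) = h.val x y := by
    intro x y
    have hx : x ∈ ⨆ i, S i := by rw [hS.2.2.1]; trivial
    have hy : y ∈ ⨆ i, S i := by rw [hS.2.2.1]; trivial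
    refine Submodule.iSup_induction S (motive := fun x => h'.val (F x) (F y) = h.val x y) hx ?_ ?_ ?_
    · intro i x hxi
      refine Submodule.iSup_induction S (motive := fun y => h'.val (F x) (F y) = h.val x y) hy
        ?_ ?_ ?_
      · intro j y hyj
        rw [hF i ⟨x, hxi⟩, hF j ⟨y, hyj⟩]
        by_cases hij : i = j
        · subst hij
          exact hφ i ⟨x, hxi⟩ ⟨y, hyj⟩
        · rw [hS.2.1 i j hij x hxi y hyj]
          exact hS'.2.1 i j hij _ (φ i ⟨x, hxi⟩).2 _ (φ j ⟨y, hyj⟩).2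
      · rw [map_zero, h'.zero_right, h.zero_right]
      · intro a b ha hb
        rw [map_add, h'.add_right, h.add_right, ha, hb]
    · rw [map_zero, h'.zero_left, h.zero_left]
    · intro a b ha hb
      rw [map_add, h'.add_left, h.add_left, ha, hb]
  have hinj : Function.Injective F := by
    rw [← LinearMap.ker_eq_bot, eq_bot_iff]
    intro x hx
    by_contra h0
    have h1 := hp x (fun h2 => h0 (by rw [h2]; exact zero_mem _))
    rw [← hval, LinearMap.mem_ker.1 hx, h'.zero_left] at h1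
    exact lt_irrefl _ h1
  have hsurj : Function.Surjective F := by
    rw [← LinearMap.range_eq_top, eq_top_iff, ← hS'.2.2.1]
    refine iSup_le fun i => ?_
    intro y hy
    refine ⟨((φ i).symm ⟨y, hy⟩).1, ?_⟩
    rw [hF i, (φ i).apply_symm_apply]
  exact ⟨LinearEquiv.ofBijective F ⟨hinj, hsurj⟩, hval⟩

theorem res_map {j : P →ₗ[MonoidAlgebra ℤ Γ] P'} (hj : Function.Injective j)
    (hv : ∀ u v, h'.val (j u) (j v) = h.val u v) (S : Submodule (MonoidAlgebra ℤ Γ) P) :
    Isometric (res h S) (res h' (S.map j)) :=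
  ⟨Submodule.equivMapOfInjective j hj S, fun u v => hv u.1 v.1⟩

/-- modules with a form -/
structure Obj (Γ : Type v) [Group Γ] where
  /-- the module -/
  car : Type u
  [acg : AddCommGroup car]
  [mod : Module (MonoidAlgebra ℤ Γ) car]
  /-- the form -/
  form : HermForm Γ car

attribute [instance] Obj.acg Obj.mod

theorem equiv_iso (Γ : Type v) [Group Γ] :
    Equivalence (fun a b : Obj.{u} Γ => Isometric a.form b.form) :=
  ⟨fun a => isometric_refl a.form, fun H => Isometric.symm' H,
    fun H H' => Isometric.trans' H H'⟩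

/-- **Cancellation.** -/
theorem cancel {Γ : Type v} [Group Γ] {P P' M : Type u} [AddCommGroup P]
    [Module (MonoidAlgebra ℤ Γ) P] [AddCommGroup P'] [Module (MonoidAlgebra ℤ Γ) P']
    [AddCommGroup M] [Module (MonoidAlgebra ℤ Γ) M] [Module.Finite (MonoidAlgebra ℤ Γ) M]
    {h : HermForm Γ P} {h' : HermForm Γ P'} {k : HermForm Γ M} (hp : h.PosDef)
    (hp' : h'.PosDef) (kp : k.PosDef) (H : Isometric (osum h k) (osum h' k)) :
    Isometric h h' := by
  have uS := universal_piece hp
  have uS' := universal_piece hp'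
  have uU := universal_piece kp
  have hfin := finite_of_universal kp uU
  obtain ⟨e, he⟩ := H
  have h1 := transport e he (universal_sum hp kp uS uU)
  have h2 := universal_sum hp' kp uS' uU
  obtain ⟨σ, hσ⟩ := exists_equiv (posDef_osum hp' kp) h1 h2
  obtain ⟨τ, hτ⟩ := comb (equiv_iso.{u, v} Γ) (Ix kp)
    (fun i : Ix hp => (⟨_, res h (piece hp i)⟩ : Obj.{u} Γ))
    (fun i : Ix hp' => (⟨_, res h' (piece hp' i)⟩ : Obj.{u} Γ))
    (fun i : Ix kp => (⟨_, res k (piece kp i)⟩ : Obj.{u} Γ)) σ (by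
      intro a
      have e1 : ∀ a : Ix hp ⊕ Ix kp, Isometric
          (Sum.elim (fun i : Ix hp => (⟨_, res h (piece hp i)⟩ : Obj.{u} Γ))
            (fun i : Ix kp => (⟨_, res k (piece kp i)⟩ : Obj.{u} Γ)) a).form
          (res (osum h k) (sumPieces (piece hp) (piece kp) a)) := by
        rintro (i | j)
        · refine res_map (j := LinearMap.inl (MonoidAlgebra ℤ Γ) P M) LinearMap.inl_injective
            (fun u v => ?_) _
          change h.val u v + k.val 0 0 = h.val u v
          rw [k.zero_left, add_zero]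
        · refine res_map (j := LinearMap.inr (MonoidAlgebra ℤ Γ) P M) LinearMap.inr_injective
            (fun u v => ?_) _
          change h.val 0 0 + k.val u v = k.val u v
          rw [h.zero_left, zero_add]
      have e2 : ∀ a : Ix hp' ⊕ Ix kp, Isometric
          (Sum.elim (fun i : Ix hp' => (⟨_, res h' (piece hp' i)⟩ : Obj.{u} Γ))
            (fun i : Ix kp => (⟨_, res k (piece kp i)⟩ : Obj.{u} Γ)) a).form
          (res (osum h' k) (sumPieces (piece hp') (piece kp) a)) := by
        rintro (i | j)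
        · refine res_map (j := LinearMap.inl (MonoidAlgebra ℤ Γ) P' M) LinearMap.inl_injective
            (fun u v => ?_) _
          change h'.val u v + k.val 0 0 = h'.val u v
          rw [k.zero_left, add_zero]
        · refine res_map (j := LinearMap.inr (MonoidAlgebra ℤ Γ) P' M) LinearMap.inr_injective
            (fun u v => ?_) _
          change h'.val 0 0 + k.val u v = k.val u v
          rw [h'.zero_left, zero_add]
      have e3 : Isometric (res (osum h k) (sumPieces (piece hp) (piece kp) a))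
          (res (osum h' k) ((sumPieces (piece hp) (piece kp) a).map
            (e : P × M →ₗ[MonoidAlgebra ℤ Γ] P' × M))) :=
        res_map (j := (e : P × M →ₗ[MonoidAlgebra ℤ Γ] P' × M)) e.injective he _
      have e4 : (sumPieces (piece hp) (piece kp) a).map
            (e : P × M →ₗ[MonoidAlgebra ℤ Γ] P' × M) =
            sumPieces (piece hp') (piece kp) (σ a) := hσ a
      rw [e4] at e3
      exact Isometric.trans' (Isometric.trans' (e1 a) e3) (Isometric.symm' (e2 (σ a))))
  have uS'' : UniversalDecomposition h' (fun i => piece hp' (τ i)) := by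
    refine ⟨fun i => uS'.1 _, fun i j hij => uS'.2.1 _ _ (fun h3 => hij (τ.injective h3)), ?_,
      fun X Y hXY hT i => uS'.2.2.2 X Y hXY hT _⟩
    rw [← uS'.2.2.1]
    exact τ.iSup_comp (g := piece hp')
  exact glue hp uS uS'' hτ

end Pool.Agent.V8H85.KS
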