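import Pool.Agent.V8H85.Fam.Defs

set_option autoImplicit false

/-! Orthogonal sums of hermitian forms over the integral group ring: definitions. -/

namespace Pool.Agent.V8H85.KS

open MonoidAlgebra Pool.Agent.V8H85.RF

variable {Γ : Type*} [Group Γ]

theorem bar_add' (a b : MonoidAlgebra ℤ Γ) : bar (a + b) = bar a + bar b := mapDomain_add _ _ _

/-- The orthogonal sum `h ⊥ k` of two hermitian forms. -/
noncomputable def osum {P M : Type*} [AddCommGroup P] [Module (MonoidAlgebra ℤ Γ) P]
    [AddCommGroup M] [Module (MonoidAlgebra ℤ Γ) M] (h : HermForm Γ P) (k : HermForm Γ M) :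
    HermForm Γ (P × M) where
  val x y := h.val x.1 y.1 + k.val x.2 y.2
  add_left x y z := by
    rw [Prod.fst_add, Prod.snd_add, h.add_left, k.add_left]
    abel
  smul_left a x y := by
    rw [Prod.smul_fst, Prod.smul_snd, h.smul_left, k.smul_left, mul_add]
  symm x y := by
    rw [h.symm, k.symm, bar_add']

/-- The submodules `X` and `Y` are orthogonal to each other. -/
def Orth {P : Type*} [AddCommGroup P] [Module (MonoidAlgebra ℤ Γ) P] (h : HermForm Γ P)
    (X Y : Submodule (MonoidAlgebra ℤ Γ) P) : Prop :=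
  ∀ x ∈ X, ∀ y ∈ Y, h.val x y = 0

/-- The family `S` of submodules is an orthogonal decomposition of the form into nonzero pieces
such that every piece lies in one of the two terms of any orthogonal decomposition of the form into
two submodules. -/
def UniversalDecomposition {P : Type*} [AddCommGroup P] [Module (MonoidAlgebra ℤ Γ) P]
    (h : HermForm Γ P) {ι : Type*} (S : ι → Submodule (MonoidAlgebra ℤ Γ) P) : Prop :=
  (∀ i, S i ≠ ⊥) ∧ (∀ i j, i ≠ j → Orth h (S i) (S j)) ∧ (⨆ i, S i) = ⊤ ∧
    ∀ X Y : Submodule (MonoidAlgebra ℤ Γ) P, Orth h X Y → X ⊔ Y = ⊤ → ∀ i, S i ≤ X ∨ S i ≤ Y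

end Pool.Agent.V8H85.KS
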