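import Pool.Agent.V8H85.KS.Cancel

set_option autoImplicit false

/-! Orthogonal summands of definite forms induced from the integers. -/

namespace Pool.Agent.V8H85.KS

open MonoidAlgebra Pool.Agent.V8H85.RF Pool.Agent.V8H85.Iso Pool.Agent.V8H85.Fam

variable {Γ : Type*} [Group Γ]

section frame

variable {E : Type*} [AddCommGroup E] [Module (MonoidAlgebra ℤ Γ) E] {F : HermForm Γ E} {n : ℕ}
  (b : Module.Basis (Fin n) (MonoidAlgebra ℤ Γ) E)

/-- the integral span of the basis -/
noncomputable def psi : (Fin n → ℤ) →+ E where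
  toFun v := ∑ i, (single 1 (v i) : MonoidAlgebra ℤ Γ) • b i
  map_zero' := by simp
  map_add' v w := by
    rw [← Finset.sum_add_distrib]
    refine Finset.sum_congr rfl fun i _ => ?_
    rw [← add_smul, Pi.add_apply, single_add]

/-- the component at the identity of the group -/
noncomputable def pim : E →+ (Fin n → ℤ) where
  toFun z i := (b.repr z i).coeff 1
  map_zero' := by
    funext i
    simp
  map_add' z w := by
    funext i
    simp

theorem repr_psi (v : Fin n → ℤ) (i : Fin n) : b.repr (psi b v) i = single 1 (v i) := by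
  change b.repr (∑ j, (single 1 (v j) : MonoidAlgebra ℤ Γ) • b j) i = _
  rw [b.repr_sum_self]

theorem pim_psi (v : Fin n → ℤ) : pim b (psi b v) = v := by
  funext i
  change (b.repr (psi b v) i).coeff 1 = v i
  rw [repr_psi, coeff_single, Finsupp.single_eq_same]

theorem psi_inj : Function.Injective (psi b) := fun v w hvw => by
  rw [← pim_psi b v, hvw, pim_psi]

theorem psi_single (i : Fin n) : psi b (Pi.single i 1) = b i := by
  change (∑ j, (single 1 ((Pi.single i 1 : Fin n → ℤ) j) : MonoidAlgebra ℤ Γ) • b j) = b i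
  rw [Finset.sum_eq_single i]
  · rw [Pi.single_eq_same, ← MonoidAlgebra.one_def, one_smul]
  · intro j _ hj
    rw [Pi.single_eq_of_ne hj]
    simp
  · simp

variable {Q : Matrix (Fin n) (Fin n) ℤ}

theorem val_psi (hQ : ∀ i j, F.val (b i) (b j) = single 1 (Q i j)) (v w : Fin n → ℤ) :
    F.val (psi b v) (psi b w) = single 1 (∑ i, ∑ j, v i * Q i j * w j) := by
  have e1 : ∀ (s : Finset (Fin n)) (f : Fin n → E) (y : E),
      F.val (∑ i ∈ s, f i) y = ∑ i ∈ s, F.val (f i) y := by
    classical
    intro s f y
    induction s using Finset.induction_on with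
    | empty => simp [F.zero_left]
    | insert a s ha ih => rw [Finset.sum_insert ha, Finset.sum_insert ha, F.add_left, ih]
  have e2 : ∀ (s : Finset (Fin n)) (f : Fin n → E) (y : E),
      F.val y (∑ i ∈ s, f i) = ∑ i ∈ s, F.val y (f i) := by
    classical
    intro s f y
    induction s using Finset.induction_on with
    | empty => simp [F.zero_right]
    | insert a s ha ih => rw [Finset.sum_insert ha, Finset.sum_insert ha, F.add_right, ih]
  have e3 : ∀ (s : Finset (Fin n)) (f : Fin n → ℤ),
      (single 1 (∑ i ∈ s, f i) : MonoidAlgebra ℤ Γ) = ∑ i ∈ s, single 1 (f i) := by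
    classical
    intro s f
    induction s using Finset.induction_on with
    | empty => simp
    | insert a s ha ih => rw [Finset.sum_insert ha, Finset.sum_insert ha, single_add, ih]
  change F.val (∑ i, (single 1 (v i) : MonoidAlgebra ℤ Γ) • b i)
    (∑ j, (single 1 (w j) : MonoidAlgebra ℤ Γ) • b j) = _
  rw [e1, e3]
  refine Finset.sum_congr rfl fun i _ => ?_
  rw [e2, e3]
  refine Finset.sum_congr rfl fun j _ => ?_
  rw [F.smul_left, F.smul_right, hQ, bar_single, inv_one, single_mul_single, single_mul_single,
    one_mul, one_mul, mul_assoc]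

theorem B_psi (hQ : ∀ i j, F.val (b i) (b j) = single 1 (Q i j)) (v : Fin n → ℤ) (z : E) :
    F.B (psi b v) z = F.B (psi b v) (psi b (pim b z)) := by
  have e2 : ∀ (s : Finset (Fin n)) (f : Fin n → E) (y : E),
      F.B y (∑ i ∈ s, f i) = ∑ i ∈ s, F.B y (f i) := by
    classical
    intro s f y
    induction s using Finset.induction_on with
    | empty =>
      simp only [Finset.sum_empty]
      unfold HermForm.B
      rw [F.zero_right]
      rfl
    | insert a s ha ih =>
      rw [Finset.sum_insert ha, Finset.sum_insert ha, F.B_symm, F.B_add, F.B_symm, ← ih,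
        F.B_symm y (∑ x ∈ s, f x)]
  have e1 : ∀ (s : Finset (Fin n)) (f : Fin n → E) (y : E),
      F.B (∑ i ∈ s, f i) y = ∑ i ∈ s, F.B (f i) y := by
    intro s f y
    rw [F.B_symm, e2]
    exact Finset.sum_congr rfl fun i _ => F.B_symm _ _
  conv_lhs => rw [← b.sum_repr z]
  change F.B (∑ i, (single 1 (v i) : MonoidAlgebra ℤ Γ) • b i) _ =
    F.B (∑ i, (single 1 (v i) : MonoidAlgebra ℤ Γ) • b i)
      (∑ j, (single 1 (pim b z j) : MonoidAlgebra ℤ Γ) • b j)
  rw [e1, e1]
  refine Finset.sum_congr rfl fun i _ => ?_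
  rw [e2, e2]
  refine Finset.sum_congr rfl fun j _ => ?_
  unfold HermForm.B
  rw [F.smul_left, F.smul_right, hQ, F.smul_left, F.smul_right, hQ, bar_single, inv_one,
    coeff_single_mul_apply, coeff_single_mul_apply, coeff_single_mul_apply,
    coeff_single_mul_apply, coeff_bar, coeff_single]
  simp only [inv_one, mul_one, Finsupp.single_eq_same]
  rfl

/-- the integral lattice -/
noncomputable def latZ (hF : F.PosDef) : Lat (Fin n → ℤ) where
  B v w := F.B (psi b v) (psi b w)
  add_left u v w := by rw [map_add, F.B_add]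
  symm v w := F.B_symm _ _
  pos v hv := hF _ (fun h0 => hv (psi_inj b (by rw [h0, map_zero])))

theorem irr_psi (hF : F.PosDef) (hQ : ∀ i j, F.val (b i) (b j) = single 1 (Q i j))
    {v : Fin n → ℤ} (hv : (latZ b hF).Irr v) : (lat hF).Irr (psi b v) := by
  refine ⟨fun h0 => hv.1 (psi_inj b (by rw [h0, map_zero])), ?_⟩
  intro x y hxy hB
  have hB' : 0 ≤ F.B x y := hB
  -- split off the components at the identity
  set x0 := pim b x with hx0
  set y0 := pim b y with hy0
  have hv0 : v = x0 + y0 := by rw [hx0, hy0, ← map_add, ← hxy, pim_psi]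
  have hc : ∀ (u : Fin n → ℤ) (z : E), F.B (psi b u) (z - psi b (pim b z)) = 0 := by
    intro u z
    rw [B_psi b hQ, map_sub, pim_psi, sub_self, map_zero]
    unfold HermForm.B
    rw [F.zero_right]
    rfl
  set x' := x - psi b x0 with hx'
  set y' := y - psi b y0 with hy'
  have hsum : y' = -x' := by
    rw [eq_neg_iff_add_eq_zero, hx', hy']
    have : psi b x0 + psi b y0 = x + y := by rw [← map_add, ← hv0, hxy]
    rw [show y - psi b y0 + (x - psi b x0) = (x + y) - (psi b x0 + psi b y0) by abel, this,
      sub_self]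
  have e1 : F.B x y = F.B (psi b x0) (psi b y0) - F.B x' x' := by
    have ex : x = psi b x0 + x' := by rw [hx']; abel
    have ey : y = psi b y0 + y' := by rw [hy']; abel
    have h1 : F.B (psi b x0) y' = 0 := hc x0 y
    have h2 : F.B (psi b y0) x' = 0 := hc y0 x
    have h3 : F.B x' y' = -F.B x' x' := by
      rw [hsum]
      exact (lat hF).neg_right x' x'
    calc F.B x y = F.B (psi b x0 + x') (psi b y0 + y') := by rw [← ex, ← ey]
      _ = F.B (psi b x0) (psi b y0) + F.B (psi b x0) y' + (F.B x' (psi b y0) + F.B x' y') := by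
        rw [F.B_add]
        have := (lat hF).add_right (psi b x0) (psi b y0) y'
        have h4 := (lat hF).add_right x' (psi b y0) y'
        change F.B _ _ = F.B _ _ + F.B _ _ at this
        change F.B _ _ = F.B _ _ + F.B _ _ at h4
        rw [this, h4]
      _ = _ := by rw [h1, F.B_symm x' (psi b y0), h2, h3]; ring
  have e2 : 0 ≤ F.B x' x' := (lat hF).nonneg x'
  have e3 : 0 ≤ F.B (psi b x0) (psi b y0) := by omega
  rcases hv.2 x0 y0 hv0 e3 with h5 | h5
  · left
    have e4 : F.B (psi b x0) (psi b y0) = 0 := by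
      rw [h5, map_zero]
      unfold HermForm.B
      rw [F.zero_left]
      rfl
    have e5 : x' = 0 := by
      by_contra h6
      have : 0 < F.B x' x' := hF x' h6
      omega
    rw [hx', h5, map_zero, sub_zero] at e5
    exact e5
  · right
    have e4 : F.B (psi b x0) (psi b y0) = 0 := by
      rw [h5, map_zero]
      unfold HermForm.B
      rw [F.zero_right]
      rfl
    have e5 : x' = 0 := by
      by_contra h6
      have : 0 < F.B x' x' := hF x' h6
      omega
    rw [e5, neg_zero, hy', h5, map_zero, sub_zero] at hsum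
    exact hsum

end frame

variable {P : Type*} [AddCommGroup P] [Module (MonoidAlgebra ℤ Γ) P]
  {M : Type*} [AddCommGroup M] [Module (MonoidAlgebra ℤ Γ) M]
  {h : HermForm Γ P} {k : HermForm Γ M}

/-- **Orthogonal summands of induced definite forms are induced.** -/
theorem extended_of_osum (hp : h.PosDef) (kp : k.PosDef) (H : (osum h k).Extended) :
    h.Extended := by
  classical
  have hF := posDef_osum hp kp
  obtain ⟨n, b, Q, hQ⟩ := H
  -- the vectors of the integral lattice in the first summand
  let N : Submodule ℤ (Fin n → ℤ) :=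
    { carrier := {v | (psi b v).2 = 0}
      add_mem' := fun {v w} hv hw => by
        change (psi b (v + w)).2 = 0
        rw [map_add, Prod.snd_add, hv, hw, add_zero]
      zero_mem' := by
        change (psi b 0).2 = 0
        rw [map_zero]
        rfl
      smul_mem' := fun c v hv => by
        change (psi b (c • v)).2 = 0
        rw [map_zsmul, Prod.smul_snd, hv, smul_zero] }
  -- every vector of the lattice splits
  have hsplit : ∀ v : Fin n → ℤ, ∃ u ∈ N, (psi b v).1 = (psi b u).1 := by
    intro v
    have h1 : v ∈ AddSubgroup.closure {y | (latZ b hF).Irr y} := by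
      rw [(latZ b hF).closure_irr]; trivial
    induction h1 using AddSubgroup.closure_induction with
    | mem y hy =>
      rcases irr_mem hF (orth_inl_inr h k) sup_inl_inr (irr_psi b hF hQ hy) with ⟨p, hp'⟩ | ⟨m, hm⟩
      · exact ⟨y, by change (psi b y).2 = 0; rw [← hp']; rfl, rfl⟩
      · exact ⟨0, zero_mem _, by rw [← hm, map_zero]; rfl⟩
    | zero => exact ⟨0, zero_mem _, rfl⟩
    | add v w _ _ hv hw =>
      obtain ⟨v', hv', ev⟩ := hv
      obtain ⟨w', hw', ew⟩ := hw
      exact ⟨v' + w', add_mem hv' hw', by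
        rw [map_add, map_add, Prod.fst_add, Prod.fst_add, ev, ew]⟩
    | neg v _ hv =>
      obtain ⟨v', hv', ev⟩ := hv
      exact ⟨-v', neg_mem hv', by rw [map_neg, map_neg, Prod.fst_neg, Prod.fst_neg, ev]⟩
  obtain ⟨m, c⟩ := Submodule.basisOfPid (Pi.basisFun ℤ (Fin n)) N
  -- the vectors of the new basis
  let d : Fin m → P := fun j => (psi b (c j).1).1
  have hd : ∀ j, psi b (c j).1 = (d j, 0) := fun j => Prod.ext rfl (c j).2
  -- integral combinations
  have hcomb : ∀ u ∈ N, ∃ t : Fin m → ℤ, u = ∑ j, t j • (c j).1 := by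
    intro u hu
    refine ⟨fun j => c.repr ⟨u, hu⟩ j, ?_⟩
    have h1 := congrArg Subtype.val (c.sum_repr ⟨u, hu⟩)
    rw [Submodule.coe_sum] at h1
    exact h1.symm
  have hli : LinearIndependent (MonoidAlgebra ℤ Γ) d := by
    rw [Fintype.linearIndependent_iff]
    intro a ha j
    -- work in the sum
    have h1 : ∑ j, a j • psi b (c j).1 = 0 := by
      have : ∀ j, a j • psi b (c j).1 = (a j • d j, 0) := by
        intro j
        rw [hd j, Prod.smul_mk, smul_zero]
      rw [Finset.sum_congr rfl fun j _ => this j]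
      have h2 : (∑ j, ((a j • d j, 0) : P × M)) = (∑ j, a j • d j, 0) := by
        rw [Prod.ext_iff]
        constructor
        · rw [Prod.fst_sum]
        · rw [Prod.snd_sum]
          simp
      rw [h2, ha]
      rfl
    refine Iso.ext_coeff fun g => ?_
    -- the coefficients at `g`
    have h3 : ∀ i, ∑ j, (a j).coeff g * (c j).1 i = 0 := by
      intro i
      have h4 := congrArg (fun z => ((b.repr z) i).coeff g) h1
      simp only [map_sum, map_smul, Finsupp.smul_apply, smul_eq_mul, repr_psi, map_zero, Finsupp.coe_zero, Pi.zero_apply, coeff_zero, coeff_sum,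
        Finsupp.finsetSum_apply, coeff_mul_single_apply, inv_one, mul_one] at h4
      exact h4
    have h5 : ∑ j, (a j).coeff g • c j = 0 := by
      apply Subtype.ext
      funext i
      have := h3 i
      simpa using this
    have h6 := (Fintype.linearIndependent_iff.1 c.linearIndependent) (fun j => (a j).coeff g) h5 j
    rw [h6]
    rfl
  have hspan : ⊤ ≤ Submodule.span (MonoidAlgebra ℤ Γ) (Set.range d) := by
    intro p _
    have h1 : ∀ z : P × M, z.1 ∈ Submodule.span (MonoidAlgebra ℤ Γ) (Set.range d) := by
      intro z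
      rw [← b.sum_repr z, Prod.fst_sum]
      refine sum_mem fun i _ => ?_
      rw [Prod.smul_fst]
      refine Submodule.smul_mem _ _ ?_
      obtain ⟨u, hu, eu⟩ := hsplit (Pi.single i 1)
      rw [psi_single] at eu
      rw [eu]
      obtain ⟨t, ht⟩ := hcomb u hu
      rw [ht, map_sum, Prod.fst_sum]
      refine sum_mem fun j _ => ?_
      rw [map_zsmul, Prod.smul_fst]
      exact zsmul_mem (Submodule.subset_span (Set.mem_range_self j)) _
    exact h1 (p, 0)
  refine ⟨m, Module.Basis.mk hli hspan,
    fun i j => ∑ i', ∑ j', (c i).1 i' * Q i' j' * (c j).1 j', fun i j => ?_⟩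
  rw [Module.Basis.mk_apply, Module.Basis.mk_apply]
  have h7 := val_psi b hQ (c i).1 (c j).1
  rw [hd i, hd j] at h7
  change h.val (d i) (d j) + k.val 0 0 = _ at h7
  rw [k.zero_left, add_zero] at h7
  exact h7

end Pool.Agent.V8H85.KS
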